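import Pool.Agent.LE.StmtsM

/-!
Row CTG of the squad LYM (MP_1906c1_mp): the Combes-Thomas bound in l^2 at a complex energy.
-/

set_option autoImplicit false

open MeasureTheory ProbabilityTheory Function Filter

open scoped ENNReal BigOperators Topology NNReal

noncomputable section

namespace Pool.Agent.LE.MN.H48

open Pool.Agent.Anderson hiding box mem_box card_box
open Pool.Agent.Loc Pool.Agent.Mob Pool.Agent.Helper54.Bal
  Pool.Agent.Helper96.EXP Pool.Agent.BED

theorem sq_diff {p q K : ℝ} (hp : 0 < p) (hq : 0 < q) (h1 : p ≤ K * q) (h2 : q ≤ K * p) :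
    |p ^ 2 - q ^ 2| ≤ 2 * (K - 1) * (p * q) := by
  have key : ∀ {p q : ℝ}, 0 < p → 0 < q → q ≤ p → p ≤ K * q →
      p ^ 2 - q ^ 2 ≤ 2 * (K - 1) * (p * q) := by
    intro p q hp hq hqp h
    have e : p ^ 2 - q ^ 2 = (p - q) * (p + q) := by ring
    rw [e]
    have h3 : p - q ≤ (K - 1) * q := by linarith
    have h4 : 0 ≤ (K - 1) * q := by linarith
    calc (p - q) * (p + q) ≤ (K - 1) * q * (p + q) :=
          mul_le_mul_of_nonneg_right h3 (by linarith)
      _ ≤ (K - 1) * q * (2 * p) := mul_le_mul_of_nonneg_left (by linarith) h4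
      _ = _ := by ring
  rcases le_total q p with h | h
  · rw [abs_of_nonneg (by nlinarith)]
    exact key hp hq h h1
  · rw [abs_of_nonpos (by nlinarith)]
    have := key hq hp h h2
    linarith

theorem tsum_shift {d : ℕ} (e : Site d) (f : Site d → ℝ) : ∑' v, f (v + e) = ∑' v, f v :=
  (Equiv.addRight e).tsum_eq f

theorem summable_shift {d : ℕ} (e : Site d) {f : Site d → ℝ} (hf : Summable f) :
    Summable fun v => f (v + e) := (Equiv.addRight e).summable_iff.2 hf

/-- CTG -/
theorem ctg : CtgStmt := by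
  intro d V Λ E η κ B u x hη hκ hsmall _ hu hΛ heq T
  obtain ⟨n, hn⟩ : ∃ n : ℕ, ∀ v ∈ T, sd x v ≤ n :=
    ⟨T.sup (sd x), fun v hv => Finset.le_sup (f := sd x) hv⟩
  obtain ⟨K, hK⟩ : ∃ K, K = Real.exp κ := ⟨_, rfl⟩
  have hK1 : 1 ≤ K := by rw [hK]; exact Real.one_le_exp hκ
  rw [← hK] at hsmall
  obtain ⟨w, hw⟩ : ∃ w : Site d → ℝ, w = fun v => Real.exp (κ * ((min (sd x v) n : ℕ) : ℝ)) :=
    ⟨_, rfl⟩
  have hw0 : ∀ v, 0 < w v := by intro v; rw [hw]; exact Real.exp_pos _
  have hwx : w x = 1 := by rw [hw]; simp [sd_self]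
  have hwn : ∀ v, w v ≤ Real.exp (κ * n) := by
    intro v
    rw [hw]
    refine Real.exp_le_exp.2 (mul_le_mul_of_nonneg_left ?_ hκ)
    exact_mod_cast min_le_right _ _
  have hwT : ∀ v ∈ T, w v = Real.exp (κ * sd x v) := by
    intro v hv
    rw [hw]
    simp only
    rw [min_eq_left (hn v hv)]
  -- the weight varies slowly
  have hstep : ∀ v v' : Site d, sd v v' ≤ 1 → w v ≤ K * w v' := by
    intro v v' h
    rw [hw, hK]
    simp only
    rw [← Real.exp_add]
    refine Real.exp_le_exp.2 ?_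
    have h1 : min (sd x v) n ≤ 1 + min (sd x v') n := by
      have h2 := sd_triangle x v' v
      rw [sd_comm v' v] at h2
      omega
    have h3 : ((min (sd x v) n : ℕ) : ℝ) ≤ 1 + ((min (sd x v') n : ℕ) : ℝ) := by
      exact_mod_cast h1
    nlinarith
  have hws : ∀ (i : Fin d) (v : Site d), |w v ^ 2 - w (v + Pi.single i 1) ^ 2| ≤
      2 * (K - 1) * (w v * w (v + Pi.single i 1)) := by
    intro i v
    refine sq_diff (hw0 _) (hw0 _) (hstep _ _ (sd_add_single_le v i)) (hstep _ _ ?_)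
    rw [sd_comm]
    exact sd_add_single_le v i
  -- summability
  obtain ⟨W, hW⟩ : ∃ W, W = Real.exp (κ * n) := ⟨_, rfl⟩
  rw [← hW] at hwn
  have hW0 : 0 < W := by rw [hW]; exact Real.exp_pos _
  have hw2 : ∀ v, w v ^ 2 ≤ W ^ 2 := fun v => pow_le_pow_left₀ (hw0 v).le (hwn v) 2
  obtain ⟨f, hf⟩ : ∃ f : Site d → ℝ, f = fun v => w v ^ 2 * ‖u v‖ ^ 2 := ⟨_, rfl⟩
  have hf0 : ∀ v, 0 ≤ f v := by intro v; rw [hf]; positivity
  have hfs : Summable f := by
    refine Summable.of_nonneg_of_le hf0 (fun v => ?_) (hu.mul_left (W ^ 2))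
    rw [hf]
    exact mul_le_mul_of_nonneg_right (hw2 v) (by positivity)
  have hnim : ∀ a b : ℂ, |((starRingEnd ℂ) a * b).im| ≤ ‖a‖ * ‖b‖ := by
    intro a b
    refine (Complex.abs_im_le_norm _).trans ?_
    rw [norm_mul, Complex.norm_conj]
  have hAs : ∀ e : Site d, Summable fun v => w v ^ 2 * ((starRingEnd ℂ) (u v) * u (v + e)).im := by
    intro e
    refine Summable.of_norm_bounded ((hu.add (summable_shift e hu)).mul_left (W ^ 2)) fun v => ?_
    rw [Real.norm_eq_abs, abs_mul, abs_of_nonneg (by positivity)]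
    refine mul_le_mul (hw2 v) ((hnim _ _).trans ?_) (abs_nonneg _) (by positivity)
    nlinarith [sq_nonneg (‖u v‖ - ‖u (v + e)‖), sq_nonneg ‖u v‖, sq_nonneg ‖u (v + e)‖]
  have hAs' : ∀ i : Fin d, Summable fun v =>
      w v ^ 2 * ((starRingEnd ℂ) (u v) * u (v - Pi.single i 1)).im := by
    intro i
    have := hAs (-Pi.single i 1)
    simpa only [← sub_eq_add_neg] using this
  -- the inequality at each point
  have hpt : ∀ v, η * f v ≤ w v ^ 2 * ((starRingEnd ℂ) (u v) * lap u v).im +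
      (if v = x then ‖u x‖ else 0) := by
    intro v
    by_cases hv : v ∈ Λ
    · obtain ⟨g, hg⟩ : ∃ g, g = lap u v + (V v : ℂ) * u v - zc E η * u v := ⟨_, rfl⟩
      have h1 := heq v hv
      rw [← hg] at h1
      have h2 : (starRingEnd ℂ) (u v) * lap u v = (starRingEnd ℂ) (u v) * g +
          (zc E η - (V v : ℂ)) * ((‖u v‖ ^ 2 : ℝ) : ℂ) := by
        have h3 : ((‖u v‖ ^ 2 : ℝ) : ℂ) = (starRingEnd ℂ) (u v) * u v := by
          rw [mul_comm, Complex.mul_conj, Complex.normSq_eq_norm_sq]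
        rw [h3, hg]
        ring
      have h4 : ((zc E η - (V v : ℂ)) * ((‖u v‖ ^ 2 : ℝ) : ℂ)).im = η * ‖u v‖ ^ 2 := by
        rw [Complex.im_mul_ofReal]
        unfold zc
        simp
      have h5 := hnim (u v) g
      rw [h1] at h5
      have h6 := neg_abs_le ((starRingEnd ℂ) (u v) * g).im
      have h7 : w v ^ 2 * (‖u v‖ * (if v = x then 1 else 0)) = if v = x then ‖u x‖ else 0 := by
        split_ifs with h
        · rw [h, hwx]; ring
        · ring
      rw [h2, Complex.add_im, h4, ← h7, hf]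
      have h8 : 0 ≤ w v ^ 2 := by positivity
      have h9 : w v ^ 2 * (-(‖u v‖ * (if v = x then 1 else 0))) ≤
          w v ^ 2 * ((starRingEnd ℂ) (u v) * g).im :=
        mul_le_mul_of_nonneg_left (by linarith) h8
      simp only
      linarith
    · rw [hf]
      simp only
      rw [hΛ v hv, norm_zero, map_zero, zero_mul, Complex.zero_im]
      have : (0 : ℝ) ≤ if v = x then ‖u x‖ else 0 := by split_ifs <;> positivity
      linarith
  have hlap : ∀ v, w v ^ 2 * ((starRingEnd ℂ) (u v) * lap u v).im = ∑ i : Fin d,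
      (w v ^ 2 * ((starRingEnd ℂ) (u v) * u (v + Pi.single i 1)).im +
        w v ^ 2 * ((starRingEnd ℂ) (u v) * u (v - Pi.single i 1)).im) := by
    intro v
    unfold lap
    rw [Finset.mul_sum, Complex.im_sum, Finset.mul_sum]
    refine Finset.sum_congr rfl fun i _ => ?_
    rw [mul_add, Complex.add_im, mul_add]
  have hls : ∀ i : Fin d, Summable fun v =>
      (w v ^ 2 * ((starRingEnd ℂ) (u v) * u (v + Pi.single i 1)).im +
        w v ^ 2 * ((starRingEnd ℂ) (u v) * u (v - Pi.single i 1)).im) := fun i =>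
    (hAs _).add (hAs' i)
  have hSs : Summable fun v => w v ^ 2 * ((starRingEnd ℂ) (u v) * lap u v).im := by
    simp only [hlap]
    exact summable_sum fun i _ => hls i
  obtain ⟨F, hF⟩ : ∃ F, F = ∑' v, f v := ⟨_, rfl⟩
  have hF0 : 0 ≤ F := by rw [hF]; exact tsum_nonneg hf0
  -- one direction
  have hdir : ∀ i : Fin d, ∑' v, (w v ^ 2 * ((starRingEnd ℂ) (u v) * u (v + Pi.single i 1)).im +
        w v ^ 2 * ((starRingEnd ℂ) (u v) * u (v - Pi.single i 1)).im) ≤ 2 * (K - 1) * F := by
    intro i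
    obtain ⟨e, he⟩ : ∃ e : Site d, e = Pi.single i 1 := ⟨_, rfl⟩
    obtain ⟨A', hA'⟩ : ∃ A' : Site d → ℝ, A' = fun v =>
      w v ^ 2 * ((starRingEnd ℂ) (u v) * u (v + e)).im := ⟨_, rfl⟩
    obtain ⟨B', hB'⟩ : ∃ B' : Site d → ℝ, B' = fun v =>
      w v ^ 2 * ((starRingEnd ℂ) (u v) * u (v - e)).im := ⟨_, rfl⟩
    have s1 : Summable A' := by rw [hA']; exact hAs e
    have s2 : Summable B' := by rw [hB', he]; exact hAs' i
    have hwse := hws i
    rw [← he] at hwse
    have h0 : ∑' v, (w v ^ 2 * ((starRingEnd ℂ) (u v) * u (v + Pi.single i 1)).im +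
        w v ^ 2 * ((starRingEnd ℂ) (u v) * u (v - Pi.single i 1)).im) = ∑' v, (A' v + B' v) := by
      rw [hA', hB', he]
    rw [h0, s1.tsum_add s2, ← tsum_shift e B', ← s1.tsum_add (summable_shift e s2)]
    have h1 : 2 * (K - 1) * F = ∑' v, (K - 1) * (f v + f (v + e)) := by
      rw [tsum_mul_left, hfs.tsum_add (summable_shift _ hfs), tsum_shift, ← hF]
      ring
    rw [h1]
    refine (s1.add (summable_shift e s2)).tsum_le_tsum (fun v => ?_)
      ((hfs.add (summable_shift _ hfs)).mul_left _)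
    rw [hA', hB']
    simp only
    rw [add_sub_cancel_right]
    have h2 : ((starRingEnd ℂ) (u (v + e)) * u v).im =
        -((starRingEnd ℂ) (u v) * u (v + e)).im := by
      simp only [Complex.mul_im, Complex.conj_re, Complex.conj_im]
      ring
    rw [h2]
    have h3 : w v ^ 2 * ((starRingEnd ℂ) (u v) * u (v + e)).im +
        w (v + e) ^ 2 * -((starRingEnd ℂ) (u v) * u (v + e)).im =
        (w v ^ 2 - w (v + e) ^ 2) *
          ((starRingEnd ℂ) (u v) * u (v + e)).im := by ring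
    rw [h3]
    refine (le_abs_self _).trans ?_
    rw [abs_mul]
    refine (mul_le_mul (hwse v) (hnim _ _) (abs_nonneg _) ?_).trans ?_
    · have := hw0 v
      have := hw0 (v + e)
      have : 0 ≤ K - 1 := by linarith
      positivity
    · rw [hf]
      simp only
      have h4 : 0 ≤ (K - 1) * (w v * ‖u v‖ - w (v + e) *
          ‖u (v + e)‖) ^ 2 := mul_nonneg (by linarith) (sq_nonneg _)
      nlinarith
  have hmain : η * F ≤ d * (2 * (K - 1) * F) + ‖u x‖ := by
    have h1 : Summable fun v : Site d => if v = x then ‖u x‖ else 0 :=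
      (hasSum_ite_eq x ‖u x‖).summable
    have h2 : ∑' v : Site d, (if v = x then ‖u x‖ else 0) = ‖u x‖ := tsum_ite_eq x _
    have h3 : ∑' v, w v ^ 2 * ((starRingEnd ℂ) (u v) * lap u v).im ≤ d * (2 * (K - 1) * F) := by
      simp only [hlap]
      rw [Summable.tsum_finsetSum fun i _ => hls i]
      refine (Finset.sum_le_card_nsmul _ _ _ fun i _ => hdir i).trans ?_
      rw [Finset.card_univ, Fintype.card_fin, nsmul_eq_mul]
    have h4 := (hfs.mul_left η).tsum_le_tsum hpt (hSs.add h1)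
    rw [tsum_mul_left, ← hF, hSs.tsum_add h1, h2] at h4
    linarith
  have hux : ‖u x‖ ^ 2 ≤ F := by
    have h1 := hfs.le_tsum x fun v _ => hf0 v
    rw [← hF, hf] at h1
    simp only at h1
    rw [hwx] at h1
    linarith
  have hFb : F ≤ 4 / η ^ 2 := by
    have h1 : η / 2 * F ≤ ‖u x‖ := by
      have : (d : ℝ) * (2 * (K - 1) * F) = (4 * d * (K - 1)) / 2 * F := by ring
      rw [this] at hmain
      have h2 : (4 * d * (K - 1)) / 2 * F ≤ η / 2 * F :=
        mul_le_mul_of_nonneg_right (by linarith) hF0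
      linarith
    have h3 : (η / 2 * F) ^ 2 ≤ F := (pow_le_pow_left₀ (by positivity) h1 2).trans hux
    rw [le_div_iff₀ (by positivity)]
    rcases eq_or_lt_of_le hF0 with h | h
    · rw [← h]; norm_num
    · have h4 : (η / 2 * F) ^ 2 = (η ^ 2 / 4 * F) * F := by ring
      rw [h4] at h3
      have h5 : η ^ 2 / 4 * F ≤ 1 := by
        by_contra hc
        rw [not_le] at hc
        nlinarith
      linarith
  refine le_trans ?_ hFb
  rw [hF]
  refine le_trans (le_of_eq ?_) (hfs.sum_le_tsum T fun v _ => hf0 v)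
  refine Finset.sum_congr rfl fun v hv => ?_
  rw [hf]
  simp only
  rw [hwT v hv, ← Real.exp_nat_mul]
  congr 2
  push_cast
  ring

end Pool.Agent.LE.MN.H48
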