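import Pool.Agent.LE.StmtsM
import Pool.Agent.Helper65_Mob.Fvl

/-!
# DLK: the deterministic link
-/

set_option autoImplicit false

open MeasureTheory ProbabilityTheory Function Filter

open scoped ENNReal BigOperators Topology NNReal

noncomputable section

namespace Pool.Agent.LE.MN.H48

open Pool.Agent.Anderson hiding box mem_box card_box
open Pool.Agent.Loc Pool.Agent.Mob Pool.Agent.Helper54.Bal
  Pool.Agent.Helper96.EXP Pool.Agent.BED

theorem half_sq (z w : ℂ) : ‖w‖ ^ 2 / 2 - ‖z + w‖ ^ 2 ≤ ‖z‖ ^ 2 := by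
  have h1 : ‖w‖ ≤ ‖z + w‖ + ‖z‖ := by
    have h2 : w = (z + w) - z := by ring
    conv_lhs => rw [h2]
    exact norm_sub_le _ _
  have h3 := norm_nonneg w
  have h4 := norm_nonneg z
  have h5 := norm_nonneg (z + w)
  nlinarith [sq_nonneg (‖z + w‖ - ‖z‖)]

theorem exp_tail {η l r : ℝ} (hη : 0 < η) (h : 4 * l ≤ r) (hl : l = 1 + Real.log (1 / η)) :
    Real.exp (-r) / η ^ 3 ≤ η := by
  rw [div_le_iff₀ (by positivity)]
  have h1 : Real.log (1 / η) = -Real.log η := by rw [one_div, Real.log_inv]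
  have h2 : η * η ^ 3 = Real.exp (4 * Real.log η) := by
    have : 4 * Real.log η = Real.log (η ^ 4) := by
      rw [Real.log_pow]; norm_num
    rw [this, Real.exp_log (by positivity)]
    ring
  rw [h2]
  apply Real.exp_le_exp.2
  rw [hl, h1] at h
  linarith

/-- the translated point is in the next cube -/
theorem link_mem {d : ℕ} {a x v : Site d} {i : Fin d} {L R R₂ : ℕ} (hRL : R₂ + L ≤ R)
    (hx : x ∈ box a R) (hv : v ∈ box (0 : Site d) R₂) (hL : (L : ℤ) ≤ |v i|)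
    (hs : ∀ j, (0 < x j - a j → v j ≤ 0) ∧ (¬ 0 < x j - a j → 0 ≤ v j)) :
    x + v ∈ box (a + pt i L) R := by
  rw [mem_box, sd_le_iff] at hx hv ⊢
  intro j
  have h1 := abs_le.1 (hx j)
  have h2 := abs_le.1 (hv j)
  simp only [Pi.zero_apply] at h2
  have h3 : (R₂ : ℤ) + L ≤ R := by exact_mod_cast hRL
  have h4 : (0 : ℤ) ≤ L := Int.natCast_nonneg L
  have h5 : (0 : ℤ) ≤ R₂ := Int.natCast_nonneg R₂
  rw [abs_le]
  simp only [Pi.add_apply]
  by_cases hj : j = i
  · subst hj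
    have e1 : pt j L j = (L : ℤ) := by simp [pt]
    rw [e1]
    rcases lt_or_ge 0 (x j - a j) with h | h
    · have h6 := (hs j).1 h
      rw [abs_of_nonpos h6] at hL
      constructor <;> linarith
    · have h6 := (hs j).2 (not_lt.2 h)
      rw [abs_of_nonneg h6] at hL
      constructor <;> linarith
  · have e1 : pt i L j = (0 : ℤ) := by simp [pt, Pi.single_eq_of_ne hj]
    rw [e1]
    rcases lt_or_ge 0 (x j - a j) with h | h
    · have h6 := (hs j).1 h
      constructor <;> linarith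
    · have h6 := (hs j).2 (not_lt.2 h)
      constructor <;> linarith

theorem dlk (hfrm : FrmStmt) (hprt : PrtStmt) : DlkStmt := by
  intro d δ hd hδ
  obtain ⟨cF, CF, hcF, hcF1, hCF, hF⟩ := hfrm d δ hd hδ
  obtain ⟨C₂, hC₂, hP⟩ := hprt d (by omega)
  obtain ⟨K, hK⟩ : ∃ K : ℝ, K = 1 + 1024 * Real.pi := ⟨_, rfl⟩
  have hK1 : 1 ≤ K := by
    rw [hK]
    have := Real.pi_pos
    linarith
  have hCK : 1 ≤ C₂ * K := by nlinarith
  obtain ⟨c, hc⟩ : ∃ c, c = cF / (8 * (C₂ * K)) := ⟨_, rfl⟩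
  have hc0 : 0 < c := by rw [hc]; positivity
  have hc1 : C₂ * K * c = cF / 8 := by
    rw [hc]
    field_simp
  have hc8 : c ≤ cF / 8 := by nlinarith
  have hcC : C₂ * c ≤ cF / 8 := by
    have h1 : C₂ * c ≤ C₂ * c * K := le_mul_of_one_le_right (by positivity) hK1
    calc C₂ * c ≤ C₂ * c * K := h1
      _ = C₂ * K * c := by ring
      _ = cF / 8 := hc1
  refine ⟨c, max CF (16 * d), hc0, by linarith, le_trans hCF (le_max_left _ _), ?_⟩
  intro V N L R R₂ a i E η τ hη hE hηc hLc hR₂ hRL hτ hτc hτl hbox hop x hx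
  have hη1 : η ≤ 1 := by linarith
  have hd0 : (0 : ℝ) < d := by
    have : 0 < d := by omega
    exact_mod_cast this
  obtain ⟨l, hl⟩ : ∃ l, l = 1 + Real.log (1 / η) := ⟨_, rfl⟩
  have hl1 : 1 ≤ l := by
    rw [hl]
    have : 0 ≤ Real.log (1 / η) := Real.log_nonneg (by rw [le_div_iff₀ hη]; linarith)
    linarith
  rw [← hl] at hR₂ hτl
  obtain ⟨T, hT⟩ : ∃ T : Finset (Fin d), T = Finset.univ.filter (fun j => 0 < x j - a j) :=
    ⟨_, rfl⟩
  have hmemT : ∀ j, j ∈ T ↔ 0 < x j - a j := by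
    intro j
    rw [hT, Finset.mem_filter]
    simp
  obtain ⟨S, hS⟩ : ∃ S : Finset (Site d), S = (box (0 : Site d) R₂).filter fun v =>
    (L : ℤ) ≤ |v i| ∧ ∀ j, (j ∈ T → v j ≤ 0) ∧ (j ∉ T → 0 ≤ v j) := ⟨_, rfl⟩
  have h1 : cF / η ≤ ∑ v ∈ S, ‖fk (zc E η) v‖ ^ 2 := by
    rw [hS]
    refine hF E η i T L R₂ hE hη (by linarith) ?_ ?_
    · refine le_trans hLc ?_
      exact div_le_div_of_nonneg_right (by linarith) hη.le
    · rw [← hl]
      refine le_trans ?_ hR₂
      refine div_le_div_of_nonneg_right ?_ hη.le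
      exact mul_le_mul_of_nonneg_right (le_max_left _ _) (by linarith)
  have hsub : box x (R₂ + 1) ⊆ box 0 N := by
    intro y hy
    apply hbox
    rw [mem_box] at hx hy ⊢
    have := sd_triangle a x y
    omega
  have h2 := hP V N R₂ x E η τ hη hη1 hτ (by linarith) hsub (hop x hx)
  have h3 : η⁻¹ * (C₂ * τ ^ 2 * kap d E η + C₂ * Real.exp (-(η * R₂ / (4 * d))) / η ^ 3) ≤
      cF / (4 * η) := by
    have a1 : C₂ * τ ^ 2 * kap d E η ≤ cF / 8 := by
      have b1 := kap_le hd E hη hη1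
      rw [← hK, ← hl] at b1
      calc C₂ * τ ^ 2 * kap d E η ≤ C₂ * τ ^ 2 * (K * l) :=
            mul_le_mul_of_nonneg_left b1 (by positivity)
        _ = C₂ * K * (τ ^ 2 * l) := by ring
        _ ≤ C₂ * K * c := mul_le_mul_of_nonneg_left hτl (by positivity)
        _ = cF / 8 := hc1
    have a2 : C₂ * Real.exp (-(η * R₂ / (4 * d))) / η ^ 3 ≤ cF / 8 := by
      have b1 : 4 * l ≤ η * R₂ / (4 * d) := by
        rw [le_div_iff₀ (by positivity)]
        rw [div_le_iff₀ hη] at hR₂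
        have b2 : 16 * d * l ≤ max CF (16 * d) * l :=
          mul_le_mul_of_nonneg_right (le_max_right _ _) (by linarith)
        linarith
      have b3 := exp_tail hη b1 hl
      calc C₂ * Real.exp (-(η * R₂ / (4 * d))) / η ^ 3 =
            C₂ * (Real.exp (-(η * R₂ / (4 * d))) / η ^ 3) := by ring
        _ ≤ C₂ * η := mul_le_mul_of_nonneg_left b3 (by linarith)
        _ ≤ C₂ * c := mul_le_mul_of_nonneg_left hηc (by linarith)
        _ ≤ cF / 8 := hcC
    calc η⁻¹ * (C₂ * τ ^ 2 * kap d E η + C₂ * Real.exp (-(η * R₂ / (4 * d))) / η ^ 3) ≤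
          η⁻¹ * (cF / 8 + cF / 8) := mul_le_mul_of_nonneg_left (add_le_add a1 a2) (by positivity)
      _ = cF / (4 * η) := by
          field_simp
          norm_num
  have hSbox : ∀ v ∈ S, v ∈ box (0 : Site d) R₂ := fun v hv => by
    rw [hS, Finset.mem_filter] at hv
    exact hv.1
  have h4 : ∑ v ∈ S, ‖gz V (box 0 N) (zc E η) (x + v) x + fk (zc E η) v‖ ^ 2 ≤
      ∑ u ∈ box x R₂, ‖gz V (box 0 N) (zc E η) u x + fk (zc E η) (u - x)‖ ^ 2 := by
    have e1 : ∑ v ∈ S, ‖gz V (box 0 N) (zc E η) (x + v) x + fk (zc E η) v‖ ^ 2 =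
        ∑ u ∈ S.map (addLeftEmbedding x),
          ‖gz V (box 0 N) (zc E η) u x + fk (zc E η) (u - x)‖ ^ 2 := by
      rw [Finset.sum_map]
      refine Finset.sum_congr rfl fun v _ => ?_
      simp only [addLeftEmbedding_apply, add_sub_cancel_left]
    rw [e1]
    refine Finset.sum_le_sum_of_subset_of_nonneg ?_ (fun _ _ _ => by positivity)
    intro u hu
    rw [Finset.mem_map] at hu
    obtain ⟨v, hv, rfl⟩ := hu
    have hv' := hSbox v hv
    rw [mem_box, sd_le_iff] at hv' ⊢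
    intro j
    have := hv' j
    simp only [Pi.zero_apply, zero_sub, abs_neg] at this
    simp only [addLeftEmbedding_apply, Pi.add_apply]
    rw [show x j - (x j + v j) = -(v j) by ring, abs_neg]
    exact this
  have h5 : cF / (4 * η) ≤ ∑ v ∈ S, ‖gz V (box 0 N) (zc E η) (x + v) x‖ ^ 2 := by
    have e1 : ∑ v ∈ S, (‖fk (zc E η) v‖ ^ 2 / 2 -
        ‖gz V (box 0 N) (zc E η) (x + v) x + fk (zc E η) v‖ ^ 2) ≤
        ∑ v ∈ S, ‖gz V (box 0 N) (zc E η) (x + v) x‖ ^ 2 :=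
      Finset.sum_le_sum fun v _ => half_sq _ _
    rw [Finset.sum_sub_distrib, ← Finset.sum_div] at e1
    have e2 : cF / (4 * η) = cF / η / 2 - cF / (4 * η) := by
      field_simp
      norm_num
    linarith
  by_contra hcon
  push Not at hcon
  have h6 : ∑ v ∈ S, ‖gz V (box 0 N) (zc E η) (x + v) x‖ ^ 2 ≤
      S.card • (c / (η * (2 * R₂ + 1 : ℝ) ^ d)) := by
    refine Finset.sum_le_card_nsmul _ _ _ fun v hv => ?_
    have hvS := hv
    rw [hS, Finset.mem_filter] at hvS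
    have hm : x + v ∈ box (a + pt i L) R := by
      refine link_mem hRL hx hvS.1 hvS.2.1 fun j => ⟨fun h => ?_, fun h => ?_⟩
      · exact (hvS.2.2 j).1 ((hmemT j).2 h)
      · exact (hvS.2.2 j).2 (fun h' => h ((hmemT j).1 h'))
    rw [Pool.Agent.Mob.H65.gz_symm]
    exact (hcon _ hm).le
  have h7 : (S.card : ℝ) ≤ (2 * R₂ + 1 : ℝ) ^ d := by
    have e1 : S.card ≤ (box (0 : Site d) R₂).card := Finset.card_le_card fun v hv => hSbox v hv
    rw [card_box] at e1
    exact_mod_cast e1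
  have h8 : S.card • (c / (η * (2 * R₂ + 1 : ℝ) ^ d)) ≤ c / η := by
    rw [nsmul_eq_mul]
    calc (S.card : ℝ) * (c / (η * (2 * R₂ + 1 : ℝ) ^ d)) ≤
          (2 * R₂ + 1 : ℝ) ^ d * (c / (η * (2 * R₂ + 1 : ℝ) ^ d)) :=
          mul_le_mul_of_nonneg_right h7 (by positivity)
      _ = c / η := by field_simp
  have h9 : c / η < cF / (4 * η) := by
    rw [div_lt_div_iff₀ hη (by positivity)]
    nlinarith [mul_pos hcF hη]
  linarith

end Pool.Agent.LE.MN.H48
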