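import Mathlib

/-!
Jensen's inequality on the unit circle for a meromorphic function without poles in the open disc.
-/

set_option autoImplicit false

open MeasureTheory Filter Metric

open scoped Topology ENNReal

namespace Pool.Agent.LE.MN.H48

theorem div_term {g : ℂ → ℂ} (hm : MeromorphicOn g (closedBall 0 |(1 : ℝ)|))
    (ha : ∀ w : ℂ, ‖w‖ < 1 → AnalyticAt ℂ g w) (u : ℂ) :
    0 ≤ (MeromorphicOn.divisor g (closedBall 0 |(1 : ℝ)|) u : ℝ) *
      Real.log (1 * ‖0 - u‖⁻¹) := by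
  by_cases hu : ‖u‖ < 1
  · have hmem : u ∈ closedBall (0 : ℂ) |(1 : ℝ)| := by
      rw [abs_one, mem_closedBall_zero_iff]
      exact hu.le
    have h1 : (0 : ℤ) ≤ MeromorphicOn.divisor g (closedBall 0 |(1 : ℝ)|) u := by
      rw [MeromorphicOn.divisor_apply hm hmem]
      have h2 := (ha u hu).meromorphicOrderAt_nonneg
      exact WithTop.untop₀_nonneg.2 h2
    have h3 : 0 ≤ Real.log (1 * ‖0 - u‖⁻¹) := by
      rw [one_mul, zero_sub, norm_neg]
      by_cases hu0 : u = 0
      · rw [hu0, norm_zero, inv_zero, Real.log_zero]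
      · refine Real.log_nonneg ?_
        exact (one_le_inv₀ (norm_pos_iff.2 hu0)).2 hu.le
    exact mul_nonneg (by exact_mod_cast h1) h3
  · by_cases hu1 : ‖u‖ = 1
    · rw [zero_sub, norm_neg, hu1, inv_one, mul_one, Real.log_one, mul_zero]
    · have hn : u ∉ closedBall (0 : ℂ) |(1 : ℝ)| := by
        rw [abs_one, mem_closedBall_zero_iff]
        intro h
        rcases lt_or_eq_of_le h with h | h
        · exact hu h
        · exact hu1 h
      rw [Function.locallyFinsuppWithin.apply_eq_zero_of_notMem _ hn]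
      simp

theorem jensen {g : ℂ → ℂ} (hm : MeromorphicOn g (closedBall 0 1))
    (ha : ∀ w : ℂ, ‖w‖ < 1 → AnalyticAt ℂ g w) (h0 : g 0 ≠ 0) :
    IntervalIntegrable (fun θ => Real.log ‖g (circleMap 0 1 θ)‖) volume 0 (2 * Real.pi) ∧
    2 * Real.pi * Real.log ‖g 0‖ ≤
      ∫ θ in (0 : ℝ)..(2 * Real.pi), Real.log ‖g (circleMap 0 1 θ)‖ := by
  have hm' : MeromorphicOn g (closedBall 0 |(1 : ℝ)|) := by rwa [abs_one]
  constructor
  · exact MeromorphicOn.circleIntegrable_log_norm (c := 0) (R := 1)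
      (hm'.mono_set sphere_subset_closedBall)
  · have h1 := MeromorphicOn.circleAverage_log_norm (c := 0) (R := 1) one_ne_zero hm'
    rw [Real.circleAverage_def, Real.log_one, mul_zero, add_zero,
      (ha 0 (by rw [norm_zero]; norm_num)).meromorphicTrailingCoeffAt_of_ne_zero h0] at h1
    have h2 := finsum_nonneg (div_term hm' ha)
    have h3 : Real.log ‖g 0‖ ≤ (2 * Real.pi)⁻¹ •
        ∫ θ in (0 : ℝ)..(2 * Real.pi), Real.log ‖g (circleMap 0 1 θ)‖ := by
      rw [h1]
      linarith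
    rw [smul_eq_mul, inv_mul_eq_div, le_div_iff₀ (by positivity)] at h3
    linarith

theorem ae_ne {g : ℂ → ℂ} (hm : MeromorphicOn g (closedBall 0 1))
    (ha : ∀ w : ℂ, ‖w‖ < 1 → AnalyticAt ℂ g w) (h0 : g 0 ≠ 0) :
    ∀ᵐ θ ∂(volume.restrict (Set.Ioo 0 (2 * Real.pi))), g (circleMap 0 1 θ) ≠ 0 := by
  have hz : meromorphicOrderAt g 0 ≠ ⊤ := by
    rw [meromorphicOrderAt_ne_top_iff_eventually_ne_zero
      (hm 0 (mem_closedBall_self zero_le_one))]
    have hc : ContinuousAt g 0 := (ha 0 (by rw [norm_zero]; norm_num)).continuousAt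
    exact (hc.eventually_ne h0).filter_mono nhdsWithin_le_nhds
  have hord : ∀ x ∈ closedBall (0 : ℂ) 1, meromorphicOrderAt g x ≠ ⊤ := fun x hx =>
    hm.meromorphicOrderAt_ne_top_of_isPreconnected
      ((convex_closedBall (0 : ℂ) 1).isPreconnected) (mem_closedBall_self zero_le_one) hx hz
  have hS : {w | g w ≠ 0} ∈ codiscreteWithin (sphere (0 : ℂ) |(1 : ℝ)|) := by
    rw [mem_codiscreteWithin_iff_forall_mem_nhdsNE]
    intro x hx
    rw [abs_one] at hx
    have hx' := sphere_subset_closedBall hx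
    have h1 := (meromorphicOrderAt_ne_top_iff_eventually_ne_zero (hm x hx')).1 (hord x hx')
    filter_upwards [h1] with z hz
    exact Or.inl hz
  have h2 := circleMap_preimage_codiscrete (c := 0) (R := 1) one_ne_zero hS
  exact ae_restrict_le_codiscreteWithin measurableSet_Ioo
    (codiscreteWithin_mono (Set.subset_univ _) h2)

/-- measure theory: from the mean of `φ` to the positive part of `F`, `F ≤ - φ` -/
theorem pos_part {F φ : ℝ → ℝ} {m : ℝ} {s : Set ℝ} (hφ : IntegrableOn φ s)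
    (hm : -m ≤ ∫ θ in s, φ θ) (hF : ∀ᵐ θ ∂(volume.restrict s), F θ ≤ -φ θ) :
    ∫⁻ θ in s, ENNReal.ofReal (F θ) ≤
      ENNReal.ofReal m + ∫⁻ θ in s, ENNReal.ofReal (-F θ) := by
  obtain ⟨A, hA⟩ : ∃ A, A = ∫⁻ θ in s, ENNReal.ofReal (φ θ) := ⟨_, rfl⟩
  obtain ⟨B, hB⟩ : ∃ B, B = ∫⁻ θ in s, ENNReal.ofReal (-φ θ) := ⟨_, rfl⟩
  have hAt : A ≠ ⊤ := by
    rw [hA]
    refine ne_of_lt (lt_of_le_of_lt (lintegral_mono fun θ => ?_) hφ.2)
    exact Real.ofReal_le_enorm _
  have hBt : B ≠ ⊤ := by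
    rw [hB]
    refine ne_of_lt (lt_of_le_of_lt (lintegral_mono fun θ => ?_) hφ.2)
    rw [← enorm_neg]
    exact Real.ofReal_le_enorm _
  have h1 : ∫ θ in s, φ θ = A.toReal - B.toReal := by
    rw [hA, hB]
    exact integral_eq_lintegral_pos_part_sub_lintegral_neg_part hφ
  have hBA : B ≤ A + ENNReal.ofReal m := by
    rw [← ENNReal.ofReal_toReal hBt, ← ENNReal.ofReal_toReal hAt]
    refine le_trans (ENNReal.ofReal_le_ofReal (?_ : B.toReal ≤ A.toReal + m))
      ENNReal.ofReal_add_le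
    rw [h1] at hm
    linarith
  have hae : AEMeasurable (fun θ => ENNReal.ofReal (φ θ)) (volume.restrict s) :=
    hφ.aemeasurable.ennreal_ofReal
  have hae' : AEMeasurable (fun θ => ENNReal.ofReal (-φ θ)) (volume.restrict s) :=
    hφ.aemeasurable.neg.ennreal_ofReal
  have h2 : (∫⁻ θ in s, ENNReal.ofReal (F θ)) + A ≤
      (∫⁻ θ in s, ENNReal.ofReal (-F θ)) + B := by
    rw [hA, hB, ← lintegral_add_right' _ hae, ← lintegral_add_right' _ hae']
    refine lintegral_mono_ae ?_
    filter_upwards [hF] with θ hθ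
    have e : ∀ a b : ℝ, a ≤ -b → ENNReal.ofReal a + ENNReal.ofReal b ≤
        ENNReal.ofReal (-a) + ENNReal.ofReal (-b) := by
      intro a b hab
      rcases le_total 0 a with h | h
      · have hb : b ≤ 0 := by linarith
        rw [ENNReal.ofReal_of_nonpos hb, add_zero]
        refine le_trans (ENNReal.ofReal_le_ofReal hab) le_add_self
      · rw [ENNReal.ofReal_of_nonpos h, zero_add]
        rcases le_total 0 b with hb | hb
        · refine le_trans (ENNReal.ofReal_le_ofReal (?_ : b ≤ -a)) le_self_add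
          linarith
        · rw [ENNReal.ofReal_of_nonpos hb]
          exact bot_le
    exact e _ _ hθ
  have h3 : (∫⁻ θ in s, ENNReal.ofReal (F θ)) + A ≤
      (ENNReal.ofReal m + ∫⁻ θ in s, ENNReal.ofReal (-F θ)) + A := by
    refine le_trans h2 ?_
    calc (∫⁻ θ in s, ENNReal.ofReal (-F θ)) + B ≤
          (∫⁻ θ in s, ENNReal.ofReal (-F θ)) + (A + ENNReal.ofReal m) := by gcongr
      _ = _ := by ring
  exact (ENNReal.add_le_add_iff_right hAt).1 h3

end Pool.Agent.LE.MN.H48
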