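import Pool.Agent.LE.StmtsM
import Pool.Agent.Helper11_Mob.Gzb
import Pool.Agent.Helper48_LYM.Jensen

/-!
Row JEN of the squad LYM (MP_1906c1_mp): Jensen's formula for the finite volume Green function.
-/

set_option autoImplicit false

open MeasureTheory ProbabilityTheory Function Filter Metric

open scoped ENNReal BigOperators Topology NNReal

noncomputable section

namespace Pool.Agent.LE.MN.H48

open Pool.Agent.Anderson hiding box mem_box card_box
open Pool.Agent.Loc Pool.Agent.Mob Pool.Agent.Helper54.Bal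
  Pool.Agent.Helper96.EXP Pool.Agent.BED

/-- the conformal map of the disc onto the upper half plane -/
def cay (E₀ η : ℝ) (w : ℂ) : ℂ := (E₀ : ℂ) + η * Complex.I * ((1 + w) / (1 - w))

theorem cay_zero (E₀ η : ℝ) : cay E₀ η 0 = zc E₀ η := by
  unfold cay zc
  simp

theorem ne_one {w : ℂ} (hw : ‖w‖ < 1) : 1 - w ≠ 0 := by
  intro h
  have h1 : w = 1 := by linear_combination -h
  rw [h1, norm_one] at hw
  exact lt_irrefl _ hw

theorem cay_im {E₀ η : ℝ} (hη : 0 < η) {w : ℂ} (hw : ‖w‖ < 1) : 0 < (cay E₀ η w).im := by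
  have h0 : 0 < Complex.normSq (1 - w) := Complex.normSq_pos.2 (ne_one hw)
  have h1 : ((1 + w) / (1 - w)).re = (1 - Complex.normSq w) / Complex.normSq (1 - w) := by
    rw [Complex.div_re, ← add_div]
    congr 1
    rw [Complex.normSq_apply]
    simp only [Complex.add_re, Complex.sub_re, Complex.one_re, Complex.add_im, Complex.sub_im,
      Complex.one_im]
    ring
  have h2 : (cay E₀ η w).im = η * ((1 + w) / (1 - w)).re := by
    unfold cay
    obtain ⟨X, hX⟩ : ∃ X, X = (1 + w) / (1 - w) := ⟨_, rfl⟩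
    rw [← hX]
    simp only [Complex.add_im, Complex.ofReal_im, Complex.mul_im, Complex.mul_re,
      Complex.ofReal_re, Complex.I_re, Complex.I_im]
    ring
  rw [h2, h1]
  have h3 : Complex.normSq w < 1 := by
    rw [Complex.normSq_eq_norm_sq]
    nlinarith [norm_nonneg w]
  have h4 : 0 < 1 - Complex.normSq w := by linarith
  positivity

theorem cay_circle {E₀ η θ : ℝ} (h0 : 0 < θ) (h1 : θ < 2 * Real.pi) :
    cay E₀ η (circleMap 0 1 θ) = ((cE E₀ η θ : ℝ) : ℂ) := by
  have hs : Real.sin (θ / 2) ≠ 0 :=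
    (Real.sin_pos_of_pos_of_lt_pi (by linarith) (by linarith)).ne'
  obtain ⟨c, hc⟩ : ∃ c : ℂ, c = ((Real.cos (θ / 2) : ℝ) : ℂ) := ⟨_, rfl⟩
  obtain ⟨s, hs'⟩ : ∃ s : ℂ, s = ((Real.sin (θ / 2) : ℝ) : ℂ) := ⟨_, rfl⟩
  have hs0 : s ≠ 0 := by
    rw [hs']
    exact_mod_cast hs
  have hcs : c ^ 2 + s ^ 2 = 1 := by
    rw [hc, hs']
    have := Real.cos_sq_add_sin_sq (θ / 2)
    exact_mod_cast this
  have hexp : circleMap 0 1 θ = (c + s * Complex.I) ^ 2 := by
    rw [circleMap_zero, Complex.ofReal_one, one_mul, hc, hs', Complex.ofReal_cos,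
      Complex.ofReal_sin, ← Complex.exp_mul_I, ← Complex.exp_nat_mul]
    congr 1
    push_cast
    ring
  have hI : Complex.I ^ 2 = -1 := Complex.I_sq
  have hu : c + s * Complex.I ≠ 0 := by
    intro h
    rw [h] at hexp
    have : ‖circleMap 0 1 θ‖ = 1 := by simp
    rw [hexp] at this
    simp at this
  have e1 : 1 + circleMap 0 1 θ = 2 * c * (c + s * Complex.I) := by
    rw [hexp]
    linear_combination (-1 : ℂ) * hcs + s ^ 2 * hI
  have e2 : 1 - circleMap 0 1 θ = -2 * s * Complex.I * (c + s * Complex.I) := by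
    rw [hexp]
    linear_combination (-1 : ℂ) * hcs + s ^ 2 * hI
  have hcE : ((cE E₀ η θ : ℝ) : ℂ) = E₀ - η * (c / s) := by
    unfold cE
    rw [hc, hs']
    push_cast
    ring
  rw [hcE]
  unfold cay
  rw [e1, e2]
  have e3 : 2 * c * (c + s * Complex.I) / (-2 * s * Complex.I * (c + s * Complex.I)) =
      c * Complex.I / s := by
    rw [div_eq_div_iff (by
      refine mul_ne_zero (mul_ne_zero (mul_ne_zero (by norm_num) hs0) Complex.I_ne_zero) hu) hs0]
    linear_combination (2 * c * s * (c + s * Complex.I)) * hI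
  rw [e3]
  field_simp
  linear_combination (η : ℂ) * c * hI

theorem mero_det {n : Type*} [Fintype n] [DecidableEq n] {f : ℂ → Matrix n n ℂ} {x : ℂ}
    (hf : ∀ i j, MeromorphicAt (fun w => f w i j) x) :
    MeromorphicAt (fun w => (f w).det) x := by
  have e : (fun w => (f w).det) = fun w => ∑ σ : Equiv.Perm n,
      ((Equiv.Perm.sign σ : ℤ) : ℂ) * ∏ i, f w (σ i) i := by
    funext w
    rw [Matrix.det_apply']
  rw [e]
  refine MeromorphicAt.fun_sum fun σ _ => ?_
  exact (MeromorphicAt.const _ x).mul (MeromorphicAt.fun_prod fun i _ => hf _ _)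

theorem mero_cay (E₀ η : ℝ) (x : ℂ) : MeromorphicAt (cay E₀ η) x := by
  have h1 : MeromorphicAt (fun w : ℂ => 1 + w) x :=
    (analyticAt_const.add analyticAt_id).meromorphicAt
  have h2 : MeromorphicAt (fun w : ℂ => 1 - w) x :=
    (analyticAt_const.sub analyticAt_id).meromorphicAt
  exact (MeromorphicAt.const _ x).add ((MeromorphicAt.const _ x).mul (h1.div h2))

variable {d : ℕ}

theorem gz_eq' {V : Site d → ℝ} {Λ : Finset (Site d)} {x y : Site d} (h : x ∈ Λ ∧ y ∈ Λ)
    (z : ℂ) : gz V Λ z x y = ((z • (1 : Matrix Λ Λ ℂ) - HC V Λ).det)⁻¹ *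
      ((z • (1 : Matrix Λ Λ ℂ) - HC V Λ).updateRow ⟨y, h.2⟩ (Pi.single ⟨x, h.1⟩ 1)).det := by
  unfold gz
  simp only [dif_pos h, Matrix.inv_def, Matrix.smul_apply, smul_eq_mul,
    Ring.inverse_eq_inv', Matrix.adjugate_apply]

theorem mero_gz (V : Site d → ℝ) (Λ : Finset (Site d)) (x y : Site d) {f : ℂ → ℂ} {w : ℂ}
    (hf : MeromorphicAt f w) : MeromorphicAt (fun w => gz V Λ (f w) x y) w := by
  by_cases h : x ∈ Λ ∧ y ∈ Λ
  · have e : (fun w => gz V Λ (f w) x y) = fun w =>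
        ((f w • (1 : Matrix Λ Λ ℂ) - HC V Λ).det)⁻¹ *
      ((f w • (1 : Matrix Λ Λ ℂ) - HC V Λ).updateRow ⟨y, h.2⟩ (Pi.single ⟨x, h.1⟩ 1)).det := by
      funext w
      exact gz_eq' h _
    rw [e]
    have hent : ∀ i j : Λ, MeromorphicAt
        (fun w : ℂ => (f w • (1 : Matrix Λ Λ ℂ) - HC V Λ) i j) w := by
      intro i j
      have e1 : (fun w : ℂ => (f w • (1 : Matrix Λ Λ ℂ) - HC V Λ) i j) =
          fun w => f w * (1 : Matrix Λ Λ ℂ) i j - HC V Λ i j := by
        funext w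
        simp only [Matrix.sub_apply, Matrix.smul_apply, smul_eq_mul]
      rw [e1]
      exact (hf.mul (MeromorphicAt.const _ w)).sub (MeromorphicAt.const _ w)
    refine (mero_det hent).inv.mul (mero_det fun i j => ?_)
    simp only [Matrix.updateRow_apply]
    split_ifs
    · exact MeromorphicAt.const _ w
    · exact hent i j
  · have e : (fun w => gz V Λ (f w) x y) = fun _ => 0 := by
      funext w
      unfold gz
      rw [dif_neg h]
    rw [e]
    exact MeromorphicAt.const _ w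

theorem det_ne_im (V : Site d → ℝ) (Λ : Finset (Site d)) {z : ℂ} (hz : 0 < z.im) :
    (z • (1 : Matrix Λ Λ ℂ) - HC V Λ).det ≠ 0 :=
  ((H11.gzb d V Λ 0 0).2.1 z hz.ne').1

theorem diff_gz (V : Site d → ℝ) (Λ : Finset (Site d)) (x y : Site d) {z : ℂ} (hz : 0 < z.im) :
    DifferentiableAt ℂ (fun z => gz V Λ z x y) z := by
  by_cases h : x ∈ Λ ∧ y ∈ Λ
  · have e : (fun z => gz V Λ z x y) = fun z =>
        ((z • (1 : Matrix Λ Λ ℂ) - HC V Λ).det)⁻¹ *
      ((z • (1 : Matrix Λ Λ ℂ) - HC V Λ).updateRow ⟨y, h.2⟩ (Pi.single ⟨x, h.1⟩ 1)).det := by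
      funext w
      exact gz_eq' h _
    rw [e]
    have hent : ∀ i j : Λ, DifferentiableAt ℂ
        (fun w : ℂ => (w • (1 : Matrix Λ Λ ℂ) - HC V Λ) i j) z := by
      intro i j
      simp only [Matrix.sub_apply, Matrix.smul_apply, smul_eq_mul]
      fun_prop
    have hd := H11.diff_det hent
    refine DifferentiableAt.fun_mul (hd.fun_inv (det_ne_im V Λ hz)) ?_
    apply H11.diff_det
    intro i j
    simp only [Matrix.updateRow_apply]
    split_ifs
    · exact differentiableAt_const _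
    · exact hent i j
  · have e : (fun z => gz V Λ z x y) = fun _ => 0 := by
      funext w
      unfold gz
      rw [dif_neg h]
    rw [e]
    exact differentiableAt_const _

theorem ana_gz (V : Site d → ℝ) (Λ : Finset (Site d)) (x y : Site d) {E₀ η : ℝ} (hη : 0 < η)
    {w : ℂ} (hw : ‖w‖ < 1) : AnalyticAt ℂ (fun w => gz V Λ (cay E₀ η w) x y) w := by
  have hD : DifferentiableOn ℂ (fun w => gz V Λ (cay E₀ η w) x y) (ball 0 1) := by
    intro v hv
    rw [mem_ball_zero_iff] at hv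
    refine DifferentiableAt.differentiableWithinAt ?_
    have h1 : DifferentiableAt ℂ (cay E₀ η) v := by
      unfold cay
      have h2 := ne_one hv
      fun_prop (disch := assumption)
    exact (diff_gz V Λ x y (cay_im hη hv)).comp v h1
  exact hD.analyticAt (isOpen_ball.mem_nhds (by rwa [mem_ball_zero_iff]))

/-- JEN -/
theorem jen : JenStmt := by
  intro d V Λ S y E₀ η hη hne
  -- the maximal point
  have hS : S.Nonempty := by
    by_contra h
    rw [Finset.not_nonempty_iff_eq_empty] at h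
    apply hne
    unfold gmz
    rw [h]
    simp
  obtain ⟨u, huS, hu⟩ := Finset.exists_mem_eq_sup S hS (fun u => ‖gz V Λ (zc E₀ η) u y‖₊)
  have hgm : gmz V Λ (zc E₀ η) S y = ‖gz V Λ (zc E₀ η) u y‖ := by
    unfold gmz
    rw [hu]
    rfl
  obtain ⟨g, hg⟩ : ∃ g : ℂ → ℂ, g = fun w => gz V Λ (cay E₀ η w) u y := ⟨_, rfl⟩
  have hm : MeromorphicOn g (closedBall 0 1) := by
    intro w _
    rw [hg]
    exact mero_gz V Λ u y (mero_cay E₀ η w)
  have ha : ∀ w : ℂ, ‖w‖ < 1 → AnalyticAt ℂ g w := by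
    intro w hw
    rw [hg]
    exact ana_gz V Λ u y hη hw
  have hg0 : g 0 = gz V Λ (zc E₀ η) u y := by
    rw [hg]
    simp only
    rw [cay_zero]
  have h0 : g 0 ≠ 0 := by
    intro h
    rw [hg0] at h
    rw [hgm, h, norm_zero] at hne
    exact hne rfl
  obtain ⟨hint, hjen⟩ := jensen hm ha h0
  have hgc : ∀ θ ∈ Set.Ioo 0 (2 * Real.pi), g (circleMap 0 1 θ) = (gr V Λ (cE E₀ η θ) u y : ℂ) := by
    intro θ hθ
    rw [hg]
    simp only
    rw [cay_circle hθ.1 hθ.2, H11.gz_real]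
  have hpi : (0 : ℝ) ≤ 2 * Real.pi := by positivity
  have hφ : IntegrableOn (fun θ => Real.log ‖g (circleMap 0 1 θ)‖) (Set.Ioo 0 (2 * Real.pi)) :=
    ((intervalIntegrable_iff_integrableOn_Ioc_of_le hpi).1 hint).mono_set Set.Ioo_subset_Ioc_self
  have hFZ : FZ V Λ (zc E₀ η) S y = -Real.log ‖g 0‖ := by
    unfold FZ
    rw [hgm, hg0]
  refine pos_part (φ := fun θ => Real.log ‖g (circleMap 0 1 θ)‖) hφ ?_ ?_
  · rw [hFZ, ← integral_Ioc_eq_integral_Ioo, ← intervalIntegral.integral_of_le hpi]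
    linarith
  · filter_upwards [ae_ne hm ha h0, ae_restrict_mem measurableSet_Ioo] with θ hθ hmem
    rw [hgc θ hmem] at hθ ⊢
    have h1 : ‖((gr V Λ (cE E₀ η θ) u y : ℝ) : ℂ)‖ = ‖gr V Λ (cE E₀ η θ) u y‖ :=
      Complex.norm_real _
    have h2 : 0 < ‖gr V Λ (cE E₀ η θ) u y‖ := by
      rw [← h1]
      exact norm_pos_iff.2 hθ
    have h3 : ‖gr V Λ (cE E₀ η θ) u y‖ ≤ gmax V Λ (cE E₀ η θ) S y := by
      unfold gmax
      have := Finset.le_sup (f := fun z => ‖gr V Λ (cE E₀ η θ) z y‖₊) huS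
      exact_mod_cast this
    unfold FD
    rw [h1]
    exact neg_le_neg (Real.log_le_log h2 h3)

end Pool.Agent.LE.MN.H48
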